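import Mathlib
import Pool.Agent.Y680.S.Top

/-!
# Semistable elliptic curves with full 2-torsion of all heights, ordered by conductor

The number of these curves with conductor at most `X` is asymptotic to `κ X ^ (2/3)`, and for every
`δ > 0` all but `C X ^ (2/3 - η)` of them satisfy `N ^ 2 ≤ |Δ| ≤ N ^ (2 + δ)`.
-/

set_option autoImplicit false

namespace Pool.Agent.Results.MP_d8bd92_nt.AlmostAllSemistable

open Filter Topology

/-- the product of the primes dividing `Δ(W)` (the conductor if `gcd(c₄, Δ) = 1`) -/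
def conductor (W : WeierstrassCurve ℤ) : ℕ := ∏ p ∈ W.Δ.natAbs.primeFactors, p

/-- all 2-torsion points are rational: `4x³ + b₂x² + 2b₄x + b₆` splits over `ℚ` -/
def FullTwoTorsion (W : WeierstrassCurve ℤ) : Prop :=
  ∃ r₁ r₂ r₃ : ℚ, ∀ x : ℚ,
    4 * x ^ 3 + W.b₂ * x ^ 2 + 2 * W.b₄ * x + W.b₆ = 4 * (x - r₁) * (x - r₂) * (x - r₃)

/-- the invariants `(c₄, c₆)` of the integral Weierstrass curves with `Δ ≠ 0` and `gcd(c₄, Δ) = 1`
(the minimal models of the semistable elliptic curves over `ℚ`) having full rational 2-torsion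
and conductor at most `X`; there is no condition on the size of `Δ` -/
def Curves (X : ℝ) : Set (ℤ × ℤ) :=
  {q | ∃ W : WeierstrassCurve ℤ, W.Δ ≠ 0 ∧ IsCoprime W.c₄ W.Δ ∧ FullTwoTorsion W ∧
    q = (W.c₄, W.c₆) ∧ (conductor W : ℝ) ≤ X}

/-- those among them for which `N ^ 2 ≤ |Δ| ≤ N ^ (2 + δ)` fails, `N` the conductor -/
def Exceptions (δ X : ℝ) : Set (ℤ × ℤ) :=
  {q | ∃ W : WeierstrassCurve ℤ, W.Δ ≠ 0 ∧ IsCoprime W.c₄ W.Δ ∧ FullTwoTorsion W ∧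
    q = (W.c₄, W.c₆) ∧ (conductor W : ℝ) ≤ X ∧
    ¬ ((conductor W : ℝ) ^ 2 ≤ |(W.Δ : ℝ)| ∧ |(W.Δ : ℝ)| ≤ (conductor W : ℝ) ^ (2 + δ))}

/-- The semistable elliptic curves over `ℚ` with full rational 2-torsion and conductor at most `X`,
of whatever discriminant, are finite in number, and their number is asymptotic to `κ X ^ (2/3)`
with `κ > 0`. For every `δ > 0` at most `C X ^ (2/3 - η)` of them violate
`N ^ 2 ≤ |Δ| ≤ N ^ (2 + δ)`. -/
theorem result :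
    (∀ X : ℝ, (Curves X).Finite) ∧
    (∃ κ : ℝ, 0 < κ ∧
      Tendsto (fun X : ℝ => ((Curves X).ncard : ℝ) / X ^ ((2 : ℝ) / 3)) atTop (𝓝 κ)) ∧
    ∀ δ : ℝ, 0 < δ → ∃ η C : ℝ, 0 < η ∧ 0 < C ∧ ∀ X : ℝ, 1 ≤ X →
      ((Exceptions δ X).ncard : ℝ) ≤ C * X ^ (2 / 3 - η) := by
  have hfin : ∀ X : ℝ, (Curves X).Finite := by
    intro X
    change (Pool.Agent.Y680.S.SC X).Finite
    rw [Pool.Agent.Y680.S.SC_eq]
    exact (Pool.Agent.Y680.S.GT_finite X).image _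
  refine ⟨hfin, Pool.Agent.Y680.S.main_asy, fun δ hδ => ?_⟩
  obtain ⟨η, C, hη, hC, h⟩ := Pool.Agent.Y680.S.main_exc δ hδ
  refine ⟨η, C, hη, hC, fun X hX => le_trans ?_ (h X hX)⟩
  refine Nat.cast_le.2 (Set.ncard_le_ncard ?_ ((hfin X).subset ?_))
  · rintro q ⟨W, w1, w2, w3, w4, w5, w6⟩
    refine ⟨W, w1, w2, w3, w4, w5, ?_⟩
    by_contra hcon
    rw [not_lt] at hcon
    exact w6 ⟨Pool.Agent.Y680.S.disc_ge w1 w2 w3, hcon⟩
  · rintro q ⟨W, w1, w2, w3, w4, w5, -⟩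
    exact ⟨W, w1, w2, w3, w4, w5⟩

end Pool.Agent.Results.MP_d8bd92_nt.AlmostAllSemistable
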