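import Mathlib
import Pool.Agent.Y680.S.Low

/-!
# The exact number of semistable curves with a large discriminant, close to the threshold

For all `κ > 2` close to `2` the number of the semistable elliptic curves over `ℚ` with full
rational 2-torsion, conductor `N ≤ X` and `|Δ| ≥ N ^ κ`, of all heights, is `X ^ (1 - κ/6 + o(1))`.
-/

set_option autoImplicit false

namespace Pool.Agent.Results.MP_d8bd92_nt.LargeDiscriminants

open Filter Topology

/-- the product of the primes dividing `Δ(W)` (the conductor if `gcd(c₄, Δ) = 1`) -/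
def conductor (W : WeierstrassCurve ℤ) : ℕ := ∏ p ∈ W.Δ.natAbs.primeFactors, p

/-- all 2-torsion points are rational: `4x³ + b₂x² + 2b₄x + b₆` splits over `ℚ` -/
def FullTwoTorsion (W : WeierstrassCurve ℤ) : Prop :=
  ∃ r₁ r₂ r₃ : ℚ, ∀ x : ℚ,
    4 * x ^ 3 + W.b₂ * x ^ 2 + 2 * W.b₄ * x + W.b₆ = 4 * (x - r₁) * (x - r₂) * (x - r₃)

/-- the invariants `(c₄, c₆)` of the integral Weierstrass curves with `Δ ≠ 0` and `gcd(c₄, Δ) = 1`
(the minimal models of the semistable elliptic curves over `ℚ`) having full rational 2-torsion,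
conductor `N ≤ X` and `|Δ| ≥ N ^ κ`; there is no other condition on the size of `Δ` -/
def Large (κ X : ℝ) : Set (ℤ × ℤ) :=
  {q | ∃ W : WeierstrassCurve ℤ, W.Δ ≠ 0 ∧ IsCoprime W.c₄ W.Δ ∧ FullTwoTorsion W ∧
    q = (W.c₄, W.c₆) ∧ (conductor W : ℝ) ≤ X ∧ (conductor W : ℝ) ^ κ ≤ |(W.Δ : ℝ)|}

/-- **The number of the curves with `N ≤ X` and `|Δ| ≥ N ^ κ` is `X ^ (1 - κ/6 + o(1))`** for every
`κ > 2` close to `2`. -/
theorem result : (∀ κ X : ℝ, (Large κ X).Finite) ∧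
    ∃ κ₀ : ℝ, 2 < κ₀ ∧ ∀ κ : ℝ, 2 < κ → κ ≤ κ₀ →
      Tendsto (fun X : ℝ => Real.log ((Large κ X).ncard : ℝ) / Real.log X) atTop
        (𝓝 (1 - κ / 6)) :=
  ⟨Pool.Agent.Y680.S.EC_finite, Pool.Agent.Y680.S.main_exp⟩

end Pool.Agent.Results.MP_d8bd92_nt.LargeDiscriminants
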