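import Mathlib
import Pool.Agent.Y680.M.Main

/-!
# Szpiro's exponent 6 in every class of congruence modulo 6

The elliptic curves over `ℚ` are given by integral Weierstrass equations with `Δ ≠ 0` and
`gcd(c₄, Δ) = 1`, i.e. by the minimal models of the semistable curves.
-/

set_option autoImplicit false

namespace Pool.Agent.Results.MP_d8bd92_nt.ModSixClasses

open WeierstrassCurve

/-- a global minimal model of a semistable elliptic curve over `ℚ` -/
def Semistable (W : WeierstrassCurve ℤ) : Prop := W.Δ ≠ 0 ∧ IsCoprime W.c₄ W.Δ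

/-- the conductor of a semistable curve: the product of the primes dividing `Δ` -/
def conductor (W : WeierstrassCurve ℤ) : ℕ := ∏ p ∈ W.Δ.natAbs.primeFactors, p

/-- the set `E(ℚ̄)` of the points over the algebraic closure of `ℚ` -/
def Pt (W : WeierstrassCurve ℤ) : Type :=
  (W.toAffine.baseChange (AlgebraicClosure ℚ)).Point

open scoped Classical in
/-- the group law of `E(ℚ̄)`, as in Mathlib -/
noncomputable instance (W : WeierstrassCurve ℤ) : AddCommGroup (Pt W) :=
  inferInstanceAs (AddCommGroup (W.toAffine.baseChange (AlgebraicClosure ℚ)).Point)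

/-- the absolute Galois group of `ℚ` -/
abbrev Gal : Type := AlgebraicClosure ℚ ≃ₐ[ℚ] AlgebraicClosure ℚ

open scoped Classical in
/-- the action of an element `σ` of the absolute Galois group of `ℚ` on `E(ℚ̄)` -/
noncomputable def galois (W : WeierstrassCurve ℤ) (σ : Gal) : Pt W →+ Pt W :=
  (Affine.Point.map (W' := W.toAffine) (S := ℚ) σ.toAlgHom :
    (W.toAffine.baseChange (AlgebraicClosure ℚ)).Point →+
      (W.toAffine.baseChange (AlgebraicClosure ℚ)).Point)

/-- the points of `E(ℚ̄)` killed by `m` -/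
def Tor (m : ℕ) (W : WeierstrassCurve ℤ) : Set (Pt W) := {P | m • P = 0}

/-- `E[m]` and `E'[m]` are isomorphic as Galois modules: there is a bijection from the first to
the second which respects addition and the Galois action -/
def Congruent (m : ℕ) (W W' : WeierstrassCurve ℤ) : Prop :=
  ∃ e : Pt W → Pt W', Set.BijOn e (Tor m W) (Tor m W') ∧
    (∀ P ∈ Tor m W, ∀ Q ∈ Tor m W, e (P + Q) = e P + e Q) ∧
    ∀ σ : Gal, ∀ P ∈ Tor m W, e (galois W σ P) = galois W' σ (e P)

/-- Let `E₀` be any semistable elliptic curve over `ℚ`. There is `c > 0` such that there are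
semistable elliptic curves `E` of arbitrarily large conductor `N` with `E[6] ≅ E₀[6]` (as Galois
modules) and `|Δ_E| ≥ c N ^ 6 (log N) ^ 3`. -/
theorem result (W₀ : WeierstrassCurve ℤ) (h : Semistable W₀) :
    ∃ c : ℝ, 0 < c ∧ ∀ X : ℕ, ∃ W : WeierstrassCurve ℤ, Semistable W ∧ Congruent 6 W₀ W ∧
      X < conductor W ∧
      c * (conductor W : ℝ) ^ 6 * Real.log (conductor W) ^ 3 ≤ |(W.Δ : ℝ)| := by
  classical
  obtain ⟨c, hc, H⟩ := Pool.Agent.Y680.M.main (AlgebraicClosure ℚ) W₀ h.1 h.2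
  refine ⟨c, hc, fun X => ?_⟩
  obtain ⟨V, h1, h2, ⟨f, g, T⟩, h3, h4⟩ := H X
  refine ⟨V, ⟨h1, h2⟩, ?_, h3, ?_⟩
  · exact ⟨f, ⟨fun P hP => T.ft P hP, fun P hP Q hQ he => by
      rw [← T.gf P hP, ← T.gf Q hQ, he], fun Q hQ => ⟨g Q, T.gt Q hQ, T.fg Q hQ⟩⟩,
      fun P hP Q hQ => T.add P Q hP hQ, fun σ P hP => T.act σ P hP⟩
  · have e : |(V.Δ : ℝ)| = (V.Δ.natAbs : ℝ) := by
      rw [Nat.cast_natAbs, Int.cast_abs]
    rw [e]
    exact h4

end Pool.Agent.Results.MP_d8bd92_nt.ModSixClasses
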