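import Mathlib
import Pool.Agent.Y680.T.F6
import Pool.Agent.Y680.T.F24
import Pool.Agent.Y680.T.F26

/-!
# The Szpiro ratio of almost all semistable curves with given torsion, ordered by conductor

For `T = ℤ/6`, `ℤ/2 × ℤ/4` and `ℤ/2 × ℤ/6` we consider all semistable elliptic curves over `ℚ` whose
group of rational points contains a subgroup isomorphic to `T`, with no condition on the height. We
find the order of magnitude of their number, ordered by the conductor `N`, and we prove that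
`log |Δ| / log N` is within `δ` of `3`, `3` and `4`, respectively, for all of them up to a
power saving.
-/

set_option autoImplicit false

namespace Pool.Agent.Results.MP_d8bd92_nt.SzpiroRatioByTorsion

/-- the product of the primes dividing `Δ(W)` (the conductor if `gcd(c₄, Δ) = 1`) -/
def conductor (W : WeierstrassCurve ℤ) : ℕ := ∏ p ∈ W.Δ.natAbs.primeFactors, p

/-- `W` is the minimal model of a semistable elliptic curve over `ℚ` -/
def Semistable (W : WeierstrassCurve ℤ) : Prop := W.Δ ≠ 0 ∧ IsCoprime W.c₄ W.Δ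

/-- the group of the rational points of the curve contains a subgroup isomorphic to `T` -/
def HasTorsion (T : Type) [AddCommGroup T] (W : WeierstrassCurve ℤ) : Prop :=
  ∃ f : T →+ (W.map (Int.castRingHom ℚ)).toAffine.Point, Function.Injective f

/-- the invariants `(c₄, c₆)` of the semistable elliptic curves over `ℚ` with a subgroup of
rational points isomorphic to `T` and with conductor at most `X`; there is no condition on the
size of `Δ` -/
def Curves (T : Type) [AddCommGroup T] (X : ℝ) : Set (ℤ × ℤ) :=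
  {g | ∃ W : WeierstrassCurve ℤ, Semistable W ∧ HasTorsion T W ∧ (conductor W : ℝ) ≤ X ∧
    (W.c₄, W.c₆) = g}

/-- those among them for which `N ^ (m - δ) ≤ |Δ| ≤ N ^ (m + δ)` fails, `N` the conductor -/
def Exceptions (T : Type) [AddCommGroup T] (m δ X : ℝ) : Set (ℤ × ℤ) :=
  {g | ∃ W : WeierstrassCurve ℤ, Semistable W ∧ HasTorsion T W ∧ (conductor W : ℝ) ≤ X ∧
    (W.c₄, W.c₆) = g ∧
    ¬ ((conductor W : ℝ) ^ (m - δ) ≤ |(W.Δ : ℝ)| ∧ |(W.Δ : ℝ)| ≤ (conductor W : ℝ) ^ (m + δ))}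

/-- The number of the semistable curves with torsion `T` and conductor at most `X` has the exact
order of magnitude `X ^ s`, and for every `δ > 0` all but at most `C X ^ (s - η)` of them satisfy
`N ^ (m - δ) ≤ |Δ| ≤ N ^ (m + δ)`. -/
def Law (T : Type) [AddCommGroup T] (s m : ℝ) : Prop :=
  (∃ C : ℝ, 0 < C ∧ ∀ X : ℝ, 1 ≤ X → (Curves T X).Finite ∧
    ((Curves T X).ncard : ℝ) ≤ C * X ^ s) ∧
  (∃ c : ℝ, 0 < c ∧ ∃ X₀ : ℝ, ∀ X : ℝ, X₀ ≤ X → c * X ^ s ≤ ((Curves T X).ncard : ℝ)) ∧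
  ∀ δ : ℝ, 0 < δ → ∃ η : ℝ, 0 < η ∧ ∃ C : ℝ, 0 < C ∧ ∀ X : ℝ, 1 ≤ X →
    ((Exceptions T m δ X).ncard : ℝ) ≤ C * X ^ (s - η)

open Pool.Agent.Y680.T in
theorem law_of {T : Type} [AddCommGroup T] {q : ℕ} {s m : ℝ} (F : Fam q (Tor T)) (hq : 3 ≤ q)
    (hs : s = 2 / (q : ℝ)) (hm : m = ((∑ i, F.e i : ℕ) : ℝ) / (q : ℝ))
    (hlow : ∃ c' : ℝ, 0 < c' ∧ ∃ X₀ : ℝ, ∀ X : ℝ, X₀ ≤ X →
      c' * X ^ (2 / (q : ℝ)) ≤ ((Cv (Tor T) X).ncard : ℝ)) : Law T s m := by
  have e1 : ∀ X, Curves T X = Cv (Tor T) X := by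
    intro X
    ext g
    constructor
    · rintro ⟨W, h1, h2, h3, h4⟩
      exact ⟨W, ⟨h1, h2⟩, h3, h4⟩
    · rintro ⟨W, ⟨h1, h2⟩, h3, h4⟩
      exact ⟨W, h1, h2, h3, h4⟩
  have e2 : ∀ δ X, Exceptions T m δ X = Bd (Tor T) m δ X := by
    intro δ X
    ext g
    constructor
    · rintro ⟨W, h1, h2, h3, h4, h5⟩
      exact ⟨W, ⟨h1, h2⟩, h3, h4, h5⟩
    · rintro ⟨W, ⟨h1, h2⟩, h3, h4, h5⟩
      exact ⟨W, h1, h2, h3, h4, h5⟩
  refine ⟨?_, ?_, fun δ hδ => ?_⟩
  · obtain ⟨C, hC, h⟩ := F.upper hq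
    refine ⟨C, hC, fun X hX => ?_⟩
    rw [e1, hs]
    exact h X hX
  · obtain ⟨c, hc, X₀, h⟩ := hlow
    refine ⟨c, hc, X₀, fun X hX => ?_⟩
    rw [e1, hs]
    exact h X hX
  · obtain ⟨η, hη, C, hC, h⟩ := F.exceptions hq hm hδ
    refine ⟨η, hη, C, hC, fun X hX => ?_⟩
    rw [e2, hs]
    exact h X hX

/-- **The Szpiro ratio of almost all semistable curves with given torsion.** The semistable elliptic
curves over `ℚ` of conductor at most `X`, of whatever height, with a rational point of order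
`6` are of exact order `X ^ (1/2)` in number, and for every `δ > 0` all but `C X ^ (1/2 - η)` of
them satisfy `N ^ (3 - δ) ≤ |Δ| ≤ N ^ (3 + δ)`. The same holds for those with a subgroup
`ℤ/2 × ℤ/4` of rational points. Those with a subgroup `ℤ/2 × ℤ/6` of rational points are of exact
order `X ^ (1/3)` in number, and all but `C X ^ (1/3 - η)` of them satisfy
`N ^ (4 - δ) ≤ |Δ| ≤ N ^ (4 + δ)`. -/
theorem result : Law (ZMod 6) (1 / 2) 3 ∧ Law (ZMod 2 × ZMod 4) (1 / 2) 3 ∧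
    Law (ZMod 2 × ZMod 6) (1 / 3) 4 := by
  refine ⟨?_, ?_, ?_⟩
  · refine law_of Pool.Agent.Y680.T.F6 (by norm_num) (by norm_num) ?_ Pool.Agent.Y680.T.lower6
    have : ∑ i, Pool.Agent.Y680.T.F6.e i = 12 := by
      change ∑ i, Pool.Agent.Y680.T.e6 i = 12
      decide
    rw [this]
    norm_num
  · refine law_of Pool.Agent.Y680.T.F24 (by norm_num) (by norm_num) ?_ Pool.Agent.Y680.T.lower24
    have : ∑ i, Pool.Agent.Y680.T.F24.e i = 12 := by
      change ∑ i, Pool.Agent.Y680.T.e24 i = 12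
      decide
    rw [this]
    norm_num
  · refine law_of Pool.Agent.Y680.T.F26 (by norm_num) (by norm_num) ?_ Pool.Agent.Y680.T.lower26
    have : ∑ i, Pool.Agent.Y680.T.F26.e i = 24 := by
      change ∑ i, Pool.Agent.Y680.T.e26 i = 24
      decide
    rw [this]
    norm_num

end Pool.Agent.Results.MP_d8bd92_nt.SzpiroRatioByTorsion
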